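import Mathlib
import Pool.Agent.H589R2.DefsBP
import Pool.Agent.W953.PM.Defs
import Pool.Agent.W953.KC.Par
import Pool.Agent.W953.KC.NMc

/-!
# Partial MBPSP in the monotone encoding
-/

set_option autoImplicit false

namespace Pool.Agent.W953.PB

open Pool.Agent.W953.PM (entryNo ones size_step)
open Pool.Agent.H589R2 Pool.Agent.W953.NW Pool.Agent.W953.KC
open Pool.Agent (H540R2.Circuit)

/-- Some branching program with `n` variables and at most `s` nodes has only allowed values;
`z (x, b)` says whether the value `b` is allowed at the point `x`. -/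
def Fits (n s : ℕ) (z : (Fin n → Bool) × Bool → Bool) : Prop :=
  ∃ C : BP n, C.size ≤ s ∧ ∀ x, z (x, C.eval x) = true

/-- the circuit answers correctly on the table `y` -/
def Right {n : ℕ} (s : ℕ) (D : H540R2.Circuit (2 ^ (n + 1))) (y : Fin (2 ^ (n + 1)) → Bool) :
    Prop :=
  D.eval y = true ↔ Fits n s (fun p => y (entryNo n p))

/-- Partial MBPSP has circuits of polynomial size. -/
def Easy : Prop := ∃ c : ℕ, ∀ n s : ℕ, ∃ D : H540R2.Circuit (2 ^ (n + 1)),
  D.size ≤ (2 ^ (n + 1)) ^ c ∧ ∀ y, Right s D y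

/-- Partial MBPSP has circuits of polynomial size with at most `t n` NOT gates for the tables with at
least `a` and less than `a + W n` allowed entries, for all `a`. -/
def EasyOn (t W : ℕ → ℕ) : Prop := ∃ c : ℕ, ∀ n s a : ℕ, ∃ D : H540R2.Circuit (2 ^ (n + 1)),
  D.nots ≤ t n ∧ D.size ≤ (2 ^ (n + 1)) ^ c ∧
    ∀ y, a ≤ ones y → ones y < a + W n → Right s D y

/-- on partial tables, this is Partial MBPSP -/
theorem fits_allowed (n s : ℕ) (T : (Fin n → Bool) → Option Bool) :
    Fits n s (allowed T) ↔ PartialMBPSP n s T := by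
  unfold Fits PartialMBPSP
  have h1 : (∃ C : BP n, C.size ≤ s ∧ ∀ x b, T x = some b → C.eval x = b) → 1 ≤ n := by
    rintro ⟨C, -, -⟩
    have := (C.var ⟨0, C.pos⟩).isLt
    omega
  rw [and_iff_right_of_imp h1]
  refine exists_congr fun C => and_congr_right fun _ => forall_congr' fun x => ?_
  generalize C.eval x = v
  show decide (T x ≠ some (!v)) = true ↔ ∀ b, T x = some b → v = b
  rw [decide_eq_true_iff]
  generalize T x = o
  rcases o with _ | b
  · simp
  · cases b <;> cases v <;> simp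

lemma fits_mono {n s : ℕ} {z z' : (Fin n → Bool) × Bool → Bool} (h : ∀ p, z p ≤ z' p)
    (hz : Fits n s z) : Fits n s z' := by
  obtain ⟨C, h1, h2⟩ := hz
  refine ⟨C, h1, fun x => ?_⟩
  have := h (x, C.eval x)
  rw [h2] at this
  exact Bool.eq_true_of_true_le this

theorem easy_iff (K : ℕ) (t W : ℕ → ℕ) (hW : ∀ n, 1 ≤ W n ∧ W n ≤ K * 2 ^ t n) :
    EasyOn t W ↔ Easy := by
  constructor
  · rintro ⟨c, h⟩
    refine ⟨c + 2 * (0 + 14) + 22, fun n s => ?_⟩
    obtain ⟨D, c1, c2⟩ := prop_back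
      (P := fun y : Fin (2 ^ (n + 1)) → Bool => Fits n s (fun p => y (entryNo n p)))
      (A := (2 ^ (n + 1)) ^ c) (fun a => by
        obtain ⟨D, -, d2, d3⟩ := h n s a
        refine ⟨D, d2, fun y hy => d3 y hy.ge ?_⟩
        have := (hW n).1
        have hy' : ones y = a := hy
        omega)
    exact ⟨D, c1.trans (size_step n c 0 _ le_rfl), c2⟩
  · rintro ⟨c, h⟩
    refine ⟨c + 2 * (K + 14) + 22, fun n s a => ?_⟩
    obtain ⟨D, c1, c2⟩ := h n s
    obtain ⟨D', d1, d2, d3⟩ := prop_windows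
      (P := fun y : Fin (2 ^ (n + 1)) → Bool => Fits n s (fun p => y (entryNo n p)))
      (fun y y' hy => fits_mono (fun p => hy _)) D c2 a (W n) K (t n) (hW n).1 (hW n).2
    exact ⟨D', d1, d2.trans (size_step n c K _ c1), d3⟩

end Pool.Agent.W953.PB
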