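import Mathlib
import Pool.Agent.W953.PB.Defs
import Pool.Agent.W953.PM.Low
import Pool.Agent.Results.MP_6b9e90_lc.MonotoneExp

/-!
# Partial MBPSP on wide windows
-/

set_option autoImplicit false

namespace Pool.Agent.W953.PB

open Pool.Agent.W953.PM (entryNo ones res rep res_rep entS subS ones_ge mcirc mcirc_eval)
open Pool.Agent.H589R2 Pool.Agent.W953.NW Pool.Agent.W953.KC
open Pool.Agent (H540R2.Circuit)

section Ren

variable {n n' : ℕ} (f : Fin n → Fin n')

/-- renaming of variables -/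
def bpRen (B : BP n) : BP n' where
  inner := B.inner
  var := fun v => f (B.var v)
  next := B.next
  topo := B.topo
  pos := B.pos
  reach := B.reach
  sinks := B.sinks

lemma bpRen_eval (B : BP n) (x : Fin n' → Bool) : (bpRen f B).eval x = B.eval (x ∘ f) := by
  rw [eval_eq_code, eval_eq_code]
  rfl

end Ren

section Emb

variable {n n' : ℕ} (hn : n' ≤ n) (h0 : 0 < n')

theorem fits_iff (s : ℕ) (z : (Fin n' → Bool) × Bool → Bool) :
    Fits n s (fun p => sx (subS hn h0) z (entryNo n p)) ↔ Fits n' s z := by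
  have hval : ∀ p, sx (subS hn h0) z (entryNo n p) = sv z (entS hn h0 p) := by
    intro p
    unfold sx subS
    rw [Equiv.symm_apply_apply]
  constructor
  · rintro ⟨C, h1, h2⟩
    refine ⟨bpRen (rep h0) C, h1, fun x => ?_⟩
    have h3 := h2 (x ∘ rep h0)
    beta_reduce at h3
    rw [hval] at h3
    unfold entS at h3
    rw [if_pos (by rw [res_rep]), res_rep] at h3
    rw [bpRen_eval]
    exact h3
  · rintro ⟨C, h1, h2⟩
    refine ⟨bpRen (Fin.castLE hn) C, h1, fun u => ?_⟩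
    beta_reduce
    rw [hval, bpRen_eval]
    unfold entS
    split_ifs with h
    · exact h2 (res hn u)
    · rfl

end Emb

/-- **Monotone circuits for Partial MBPSP on windows.** -/
theorem low {n n' s W : ℕ} (hn : n' ≤ n) (hn' : 2560 ≤ n') (hs₁ : 2 ^ (n' / 4) ≤ s)
    (hs₂ : s ≤ 2 ^ (n' / 2)) (hW : 2 ^ (n' + 1) < W) (D : H540R2.Circuit (2 ^ (n + 1)))
    (hD : D.nots = 0)
    (h : ∀ y, 2 ^ (n + 1) ≤ ones y + 2 ^ (n' + 1) → ones y < 2 ^ (n + 1) - 2 ^ (n' + 1) + W →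
      Right s D y) : 2 ^ 2 ^ (n' / 128 - 2) ≤ D.size := by
  have h0 : 0 < n' := by omega
  have hm : D.Monotone := (Pool.Agent.W953.NW.nots_eq_zero_iff _).mp hD
  refine Pool.Agent.Results.MP_6b9e90_lc.MonotoneExp.result n' s hn' hs₁ hs₂
    (mcirc (subS hn h0) D) fun T => ?_
  rw [mcirc_eval _ D hm, ← fits_allowed, ← fits_iff hn h0 s (allowed T)]
  refine h _ (ones_ge hn h0 _) ?_
  have h1 : ones (sx (subS hn h0) (allowed T)) ≤ 2 ^ (n + 1) := by
    unfold ones
    refine (Finset.card_le_univ _).trans ?_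
    rw [Fintype.card_fin]
  have h2 : 2 ^ (n' + 1) ≤ 2 ^ (n + 1) := Nat.pow_le_pow_right (by norm_num) (by omega)
  omega

theorem not_on (W : ℕ → ℕ) (d : ℕ) (h : ∃ᶠ n : ℕ in Filter.atTop, 2 ^ n ≤ W n ^ d) :
    ¬ EasyOn (fun _ => 0) W := by
  rintro ⟨c, hc⟩
  obtain ⟨A, hA⟩ : ∃ A, A = 260 * (d + 1) * (c + 1) + 5 := ⟨_, rfl⟩
  obtain ⟨T, hT0⟩ : ∃ T, T = 256 * (2 * A + 4) + 2560 := ⟨_, rfl⟩
  obtain ⟨n, hnT, hn⟩ := Filter.frequently_atTop.1 h ((T + 3) * (d + 1))
  have hn0 : 1 ≤ n := le_trans (Nat.mul_pos (by omega) (by omega)) hnT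
  obtain ⟨L, hL⟩ : ∃ L, L = Nat.log 2 (W n) := ⟨_, rfl⟩
  have hW1 : 1 ≤ W n := by
    rcases Nat.eq_zero_or_pos (W n) with h0 | h0
    · rw [h0] at hn
      rcases Nat.eq_zero_or_pos d with h1 | h1
      · rw [h1, pow_zero] at hn
        have : 2 ^ 1 ≤ 2 ^ n := Nat.pow_le_pow_right (by norm_num) hn0
        omega
      · rw [zero_pow (by omega)] at hn
        have : 1 ≤ 2 ^ n := Nat.one_le_two_pow
        omega
    · exact h0
  have hnL : n < (L + 1) * d := by
    have h1 : W n < 2 ^ (L + 1) := by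
      rw [hL]
      exact Nat.lt_pow_succ_log_self (by norm_num) _
    have hd : d ≠ 0 := by
      rintro rfl
      rw [pow_zero] at hn
      have : 2 ^ 1 ≤ 2 ^ n := Nat.pow_le_pow_right (by norm_num) hn0
      omega
    have h2 : 2 ^ n < 2 ^ ((L + 1) * d) := by
      calc 2 ^ n ≤ W n ^ d := hn
        _ < (2 ^ (L + 1)) ^ d := Nat.pow_lt_pow_left h1 hd
        _ = 2 ^ ((L + 1) * d) := by rw [← pow_mul]
    exact (Nat.pow_lt_pow_iff_right (by norm_num : 1 < 2)).1 h2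
  obtain ⟨n', hn'⟩ : ∃ n', n' = min (L - 2) n := ⟨_, rfl⟩
  have hnn : n ≤ (n' + 3) * (d + 1) := by
    rcases le_total (L - 2) n with h1 | h1
    · rw [min_eq_left h1] at hn'
      calc n ≤ (L + 1) * d := hnL.le
        _ ≤ (n' + 3) * (d + 1) := Nat.mul_le_mul (by omega) (by omega)
    · rw [min_eq_right h1] at hn'
      rw [hn']
      nlinarith
  have hT' : T ≤ n' := by
    by_contra hcon
    rw [not_le] at hcon
    have h1 : n' + 3 < T + 3 := Nat.add_lt_add_right hcon 3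
    have : (n' + 3) * (d + 1) < (T + 3) * (d + 1) :=
      Nat.mul_lt_mul_of_pos_right h1 (Nat.succ_pos d)
    omega
  have hT : 256 * (2 * A + 4) + 2560 ≤ n' := by
    rw [← hT0]
    exact hT'
  have hn'n : n' ≤ n := by rw [hn']; exact min_le_right _ _
  have hWn : 2 ^ (n' + 1) < W n := by
    have h1 : n' + 1 < L := by
      have : n' ≤ L - 2 := by rw [hn']; exact min_le_left _ _
      omega
    calc 2 ^ (n' + 1) < 2 ^ L := Nat.pow_lt_pow_right (by norm_num) h1
      _ ≤ W n := by rw [hL]; exact Nat.pow_log_le_self 2 (by omega)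
  have hle : 2 ^ (n' + 1) ≤ 2 ^ (n + 1) := Nat.pow_le_pow_right (by norm_num) (by omega)
  obtain ⟨D, d1, d2, d3⟩ := hc n (2 ^ (n' / 2)) (2 ^ (n + 1) - 2 ^ (n' + 1))
  have hlow := low (s := 2 ^ (n' / 2)) hn'n (by omega)
    (Nat.pow_le_pow_right (by norm_num) (by omega)) le_rfl hWn D (Nat.le_zero.1 d1)
    (fun y hy1 hy2 => d3 y (by omega) hy2)
  have h3 : 2 ^ (n' / 256 - 2) ≤ (n + 1) * c := by
    have : 2 ^ 2 ^ (n' / 128 - 2) ≤ 2 ^ ((n + 1) * c) := by
      rw [pow_mul]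
      exact hlow.trans d2
    exact le_trans (Nat.pow_le_pow_right (by norm_num) (by omega))
      ((Nat.pow_le_pow_iff_right (by norm_num : 1 < 2)).1 this)
  obtain ⟨q, hq⟩ : ∃ q, q = n' / 256 := ⟨_, rfl⟩
  obtain ⟨m, hm⟩ : ∃ m, m = (q - 2) / 2 := ⟨_, rfl⟩
  rw [← hq] at h3
  have hqA : 2 * A + 4 ≤ q := by omega
  have hmA : A ≤ m := by omega
  have h4 : q + 1 ≤ 2 ^ m := by
    have := Pool.Agent.Results.MP_d2e5f8_lc.MonotoneExp.pow_ge_lin' m (by omega)
    omega
  have h5 : A < 2 ^ m := lt_of_lt_of_le Nat.lt_two_pow_self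
    (Nat.pow_le_pow_right (by norm_num) hmA)
  have h6 : A * (q + 1) < 2 ^ (q - 2) := by
    calc A * (q + 1) < 2 ^ m * 2 ^ m :=
          lt_of_lt_of_le (Nat.mul_lt_mul_of_pos_right h5 (Nat.succ_pos q))
            (Nat.mul_le_mul_left _ h4)
      _ = 2 ^ (m + m) := by rw [← pow_add]
      _ ≤ 2 ^ (q - 2) := Nat.pow_le_pow_right (by norm_num) (by omega)
  have h7 : (n + 1) * c ≤ A * (q + 1) := by
    have e1 : n' + 3 ≤ 259 * (q + 1) := by omega
    calc (n + 1) * c ≤ (259 * (q + 1) * (d + 1) + 1) * c :=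
          Nat.mul_le_mul_right _ (Nat.succ_le_succ (hnn.trans (Nat.mul_le_mul_right _ e1)))
      _ ≤ (260 * (q + 1) * (d + 1)) * (c + 1) := by
          refine Nat.mul_le_mul ?_ (Nat.le_succ c)
          have : 1 ≤ (q + 1) * (d + 1) := Nat.mul_pos (Nat.succ_pos q) (Nat.succ_pos d)
          nlinarith
      _ = 260 * (d + 1) * (c + 1) * (q + 1) := by ring
      _ ≤ A * (q + 1) := by
          refine Nat.mul_le_mul_right _ ?_
          rw [hA]
          exact Nat.le_add_right _ _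
  omega

end Pool.Agent.W953.PB
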